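import Pool.Agent.Q196.PermBasis

/-!
# Property (U) does not give a permuted basis, even for minimal sequences in Hilbert space

For `𝕜 = ℝ` or `ℂ` we exhibit a separable Hilbert space and a minimal sequence with property (U)
such that no permutation of the sequence is a Schauder basis.

The space is the `ℓ²`-sum of blocks of dimension `2, 4, 6, …`; in the block of dimension `n` the
`n` vectors of the sequence have Gram matrix `I + J` (`J` the all-ones matrix), so that
`‖∑ a i • x i‖ ^ 2 = ∑ ‖a i‖ ^ 2 + ‖∑ a i‖ ^ 2`.
A greedy order inside the block keeps the partial sums of any given vector bounded by three times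
its norm, while for every fixed order the vector with coefficients `1` at the first half of the
block and `-1` at the second half has a partial sum which is too long.
-/

namespace Pool.Agent.Results.MP_514f39_an.NoPermutedBasis

open Pool.Agent.Q196.PermBasis

theorem result (𝕜 : Type) [RCLike 𝕜] :
    ∃ (E : Type) (_ : NormedAddCommGroup E) (_ : InnerProductSpace 𝕜 E) (_ : CompleteSpace E)
      (_ : TopologicalSpace.SeparableSpace E) (x : ℕ → E),
      IsMinimal 𝕜 x ∧ PropertyU 𝕜 x ∧ ∀ τ : Equiv.Perm ℕ, ¬ IsBasis 𝕜 (x ∘ τ) :=
  ⟨H 𝕜, inferInstance, inferInstance, inferInstance, separable_of_propertyU (propertyU_x 𝕜),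
    x 𝕜, minimal_x 𝕜, propertyU_x 𝕜, not_basis 𝕜⟩

end Pool.Agent.Results.MP_514f39_an.NoPermutedBasis
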